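import Pool.Agent.helper76.UF.Spec

/-!
# Project UF, row CST: the constant coefficient of `a * b(a)`
-/

set_option autoImplicit false

namespace Pool.Agent.UF

open Finset Polynomial NumberField

/-- the coefficients of `x^i * b(x)^j` -/
private def CST_e (N i j k : ℕ) : ℤ :=
  if j ≤ i then (if k = i - j then 1 else 0) else (if k = N + i - j then -1 else 0)

private lemma CST_prod {N : ℕ} {R : Type} [CommRing R] {x y : R} (hx : x ^ N = -1) (hy : y * x = 1)
    (i j : ℕ) (hi : i < N) (hj : j < N) :
    x ^ i * y ^ j = ∑ k ∈ range N, (CST_e N i j k : R) * x ^ k := by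
  have hxy : ∀ n : ℕ, x ^ n * y ^ n = 1 := by
    intro n
    rw [← mul_pow, mul_comm x y, hy, one_pow]
  by_cases h : j ≤ i
  · rw [sum_eq_single (i - j)]
    · have h1 : CST_e N i j (i - j) = 1 := by simp [CST_e, h]
      rw [h1, Int.cast_one, one_mul]
      have h2 : x ^ i = x ^ (i - j) * x ^ j := by rw [← pow_add, Nat.sub_add_cancel h]
      rw [h2, mul_assoc, hxy, mul_one]
    · intro k _ hk
      have h1 : CST_e N i j k = 0 := by simp [CST_e, h, hk]
      rw [h1, Int.cast_zero, zero_mul]
    · intro hk
      exact absurd (mem_range.mpr (by omega)) hk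
  · rw [sum_eq_single (N + i - j)]
    · have h1 : CST_e N i j (N + i - j) = -1 := by simp [CST_e, h]
      rw [h1]
      have h2 : x ^ (N + i - j) * x ^ j = - x ^ i := by
        rw [← pow_add, Nat.sub_add_cancel (by omega), pow_add, hx]
        ring
      have h3 : x ^ (N + i - j) = - (x ^ i * y ^ j) := by
        calc x ^ (N + i - j) = x ^ (N + i - j) * (x ^ j * y ^ j) := by rw [hxy, mul_one]
          _ = (x ^ (N + i - j) * x ^ j) * y ^ j := by ring
          _ = - (x ^ i * y ^ j) := by rw [h2]; ring
      rw [h3]
      push_cast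
      ring
    · intro k _ hk
      have h1 : CST_e N i j k = 0 := by simp [CST_e, h, hk]
      rw [h1, Int.cast_zero, zero_mul]
    · intro hk
      exact absurd (mem_range.mpr (by omega)) hk

theorem CST : CST_stmt := by
  intro N R _ x b hN hB hb c d h
  obtain ⟨hxN, hind⟩ := hB
  have hy : b x * x = 1 := hb.1
  -- the coefficients of the product
  set E : ℕ → ℤ := fun k => ∑ i ∈ range N, ∑ j ∈ range N, c i * c j * CST_e N i j k with hE
  have h1 : (∑ i ∈ range N, (c i : R) * x ^ i) * b (∑ i ∈ range N, (c i : R) * x ^ i) =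
      ∑ k ∈ range N, (E k : R) * x ^ k := by
    have h2 : b (∑ i ∈ range N, (c i : R) * x ^ i) = ∑ j ∈ range N, (c j : R) * (b x) ^ j := by
      rw [map_sum]
      refine sum_congr rfl fun j _ => ?_
      rw [map_mul, map_intCast, map_pow]
    rw [h2, sum_mul_sum]
    have h3 : ∀ i ∈ range N, ∀ j ∈ range N, (c i : R) * x ^ i * ((c j : R) * (b x) ^ j) =
        ∑ k ∈ range N, ((c i * c j * CST_e N i j k : ℤ) : R) * x ^ k := by
      intro i hi j hj
      have h4 : (c i : R) * x ^ i * ((c j : R) * (b x) ^ j) =
          (c i : R) * (c j : R) * (x ^ i * (b x) ^ j) := by ring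
      rw [h4, CST_prod hxN hy i j (mem_range.mp hi) (mem_range.mp hj), mul_sum]
      refine sum_congr rfl fun k _ => ?_
      push_cast
      ring
    rw [sum_congr rfl fun i hi => sum_congr rfl fun j hj => h3 i hi j hj]
    have h5 : ∀ k ∈ range N, (E k : R) * x ^ k =
        ∑ i ∈ range N, ∑ j ∈ range N, ((c i * c j * CST_e N i j k : ℤ) : R) * x ^ k := by
      intro k _
      rw [hE]
      simp only
      rw [Int.cast_sum, sum_mul]
      refine sum_congr rfl fun i _ => ?_
      rw [Int.cast_sum, sum_mul]
    rw [sum_congr rfl h5, sum_congr rfl fun i _ => sum_comm (s := range N) (t := range N), sum_comm]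
  have h6 := hind (fun k => d k - E k) (by
    have h7 : ∑ k ∈ range N, ((d k - E k : ℤ) : R) * x ^ k =
        ∑ k ∈ range N, (d k : R) * x ^ k - ∑ k ∈ range N, (E k : R) * x ^ k := by
      rw [← sum_sub_distrib]
      refine sum_congr rfl fun k _ => ?_
      push_cast
      ring
    rw [h7, ← h, h1, sub_self]) 0 (by omega)
  have h8 : E 0 = ∑ i ∈ range N, (c i) ^ 2 := by
    rw [hE]
    simp only
    refine sum_congr rfl fun i hi => ?_
    rw [sum_eq_single i]
    · have : CST_e N i i 0 = 1 := by simp [CST_e]
      rw [this]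
      ring
    · intro j hj hji
      have hi' := mem_range.mp hi
      have hj' := mem_range.mp hj
      have : CST_e N i j 0 = 0 := by
        unfold CST_e
        by_cases hle : j ≤ i
        · rw [if_pos hle, if_neg (by omega)]
        · rw [if_neg hle, if_neg (by omega)]
      rw [this, mul_zero]
    · intro hn
      exact absurd hi hn
  linarith

end Pool.Agent.UF
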