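import Pool.Agent.helper76.UF.Spec

/-!
# Project UF, row TWD
-/

set_option autoImplicit false

namespace Pool.Agent.UF

open Finset Polynomial NumberField

theorem TWD : TWD_stmt := by
  intro R _ _ b τ hb hτb D f δ ε hf hτf hI hδε
  have hδ0 : δ ≠ 0 := by
    rintro rfl
    exact hf (by rw [← hδε, zero_mul])
  have h1 : Ideal.span {δ} = Ideal.span {τ δ} := by
    have h2 : Ideal.map (τ : R →+* R) (Ideal.span {(D : R), f}) = Ideal.span {(D : R), f} := by
      rw [Ideal.map_span, Set.image_insert_eq, Set.image_singleton]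
      have e1 : (τ : R →+* R) (D : R) = (D : R) := map_natCast _ D
      have e2 : (τ : R →+* R) f = f := hτf
      rw [e1, e2]
    rw [hI, Ideal.map_span, Set.image_singleton] at h2
    exact h2.symm
  obtain ⟨u, hu⟩ := Ideal.span_singleton_eq_span_singleton.mp h1
  -- `τ ε = u⁻¹ ε`
  have h3 : (u : R) * τ ε = ε := by
    have h4 : δ * ((u : R) * τ ε) = δ * ε := by
      rw [← mul_assoc, hu, ← map_mul, hδε, hτf]
    exact mul_left_cancel₀ hδ0 h4
  have h5 : τ ε = ((u⁻¹ : Rˣ) : R) * ε := by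
    calc τ ε = ((u⁻¹ : Rˣ) : R) * ((u : R) * τ ε) := by rw [← mul_assoc, Units.inv_mul, one_mul]
      _ = ((u⁻¹ : Rˣ) : R) * ε := by rw [h3]
  have h6 : b (u : R) * b ((u⁻¹ : Rˣ) : R) = 1 := by
    rw [← map_mul, Units.mul_inv, map_one]
  refine ⟨b (u : R) * ((u⁻¹ : Rˣ) : R), ?_, ?_⟩
  · rw [map_mul, hb]
    calc b (u : R) * ((u⁻¹ : Rˣ) : R) * ((u : R) * b ((u⁻¹ : Rˣ) : R)) =
        (b (u : R) * b ((u⁻¹ : Rˣ) : R)) * (((u⁻¹ : Rˣ) : R) * (u : R)) := by ring
      _ = 1 := by rw [h6, Units.inv_mul, one_mul]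
  · rw [map_mul, hτb, ← hu, map_mul, h5]
    ring

end Pool.Agent.UF
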